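import Pool.Agent.H828_QP.Len

/-!
# The poset of quasi-parabolic hyperbolic structures: definitions
-/

set_option autoImplicit false

open Pointwise

namespace Pool.Agent.H828_QC

open Pool.Agent.H828_QP (ln ln_le ln_one ln_spec ln_mul ln_inv ln_mem ln_pow ln_lower)

section defs

variable {G : Type} [Group G]

/-- The word length of `g` with respect to the set `X` (and the inverses of its elements). -/
noncomputable def len (X : Set G) (g : G) : ℕ := sInf {n : ℕ | g ∈ (X ∪ X⁻¹) ^ n}

/-- The Gromov product of the vertices `x`, `y` of the Cayley graph of `G` with respect to `X`, with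
base point `w`; the distance of `x` and `y` is the word length of `x⁻¹ y`. -/
noncomputable def gp (X : Set G) (w x y : G) : ℝ :=
  ((len X (w⁻¹ * x) : ℝ) + (len X (w⁻¹ * y) : ℝ) - (len X (x⁻¹ * y) : ℝ)) / 2

/-- The Cayley graph of `G` with respect to `X` is Gromov hyperbolic (four point condition). -/
def Hyp (X : Set G) : Prop :=
  ∃ δ : ℝ, ∀ w x y z : G, min (gp X w x y) (gp X w y z) - δ ≤ gp X w x z

/-- The sequence `u` of vertices converges to infinity. -/
def Conv (X : Set G) (u : ℕ → G) : Prop :=
  ∀ K : ℝ, ∃ N : ℕ, ∀ m n : ℕ, N ≤ m → N ≤ n → K ≤ gp X 1 (u m) (u n)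

/-- The sequences `u` and `v` converge to the same point of the Gromov boundary. -/
def Same (X : Set G) (u v : ℕ → G) : Prop :=
  ∀ K : ℝ, ∃ N : ℕ, ∀ m n : ℕ, N ≤ m → N ≤ n → K ≤ gp X 1 (u m) (v n)

/-- The point of the Gromov boundary to which the sequence `u` converges: the set of all sequences
that converge to infinity and to the same point as `u`. -/
def pt (X : Set G) (u : ℕ → G) : Set (ℕ → G) := {v | Conv X v ∧ Same X u v}

/-- The limit set of `G` in the Gromov boundary of the Cayley graph: the points to which sequences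
of elements of the orbit of the vertex `1` converge. All vertices are in this orbit, so this is the
whole boundary. -/
def lim (X : Set G) : Set (Set (ℕ → G)) := {p | ∃ u : ℕ → G, Conv X u ∧ p = pt X u}

/-- The action of `g` on the boundary. -/
def act (g : G) (p : Set (ℕ → G)) : Set (ℕ → G) := (fun (v : ℕ → G) (n : ℕ) => g * v n) '' p

/-- `X` is a generating set of `G` for which the Cayley graph is hyperbolic and the action of `G`
on it is quasi-parabolic: `G` fixes a point of the boundary and the limit set is infinite. -/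
structure IsQP (X : Set G) : Prop where
  gen : Subgroup.closure X = ⊤
  hyp : Hyp X
  fixed : ∃ p ∈ lim X, ∀ g : G, act g p = p
  infinite : (lim X).Infinite

end defs

/-- The generating sets that define quasi-parabolic structures. -/
def QPGen (G : Type) [Group G] : Type := {X : Set G // IsQP X}

section basic

variable {G : Type} [Group G]

theorem len_eq (X : Set G) (g : G) : len X g = ln X g := rfl

/-- `Y ≼ X` implies a linear bound. -/
theorem len_le_mul {X Y : Set G} (hX : Subgroup.closure X = ⊤) (hY : Subgroup.closure Y = ⊤)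
    {C : ℕ} (h : ∀ x ∈ X, len Y x ≤ C) (g : G) : len Y g ≤ C * len X g := by
  have key : ∀ n : ℕ, ∀ g ∈ (X ∪ X⁻¹) ^ n, len Y g ≤ C * n := by
    intro n
    induction n with
    | zero =>
      intro g hg
      rw [pow_zero, Set.mem_one] at hg
      subst hg
      rw [len_eq, ln_one]; simp
    | succ n ih =>
      intro g hg
      rw [pow_succ] at hg
      obtain ⟨a, ha, b, hb, rfl⟩ := Set.mem_mul.1 hg
      have h1 := ih a ha
      have h2 : len Y b ≤ C := by
        rcases hb with hb | hb
        · exact h b hb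
        · have := h _ (Set.mem_inv.1 hb)
          rwa [len_eq, ln_inv] at this
      have h3 : len Y (a * b) ≤ len Y a + len Y b := ln_mul hY a b
      rw [mul_add, mul_one]
      omega
  exact key _ g (ln_spec hX g)

end basic

/-- `[Y] ≼ [X]` if and only if the elements of `X` have bounded length with respect to `Y`. -/
instance (G : Type) [Group G] : Preorder (QPGen G) where
  le Y X := ∃ C : ℕ, ∀ x ∈ X.1, len Y.1 x ≤ C
  le_refl X := ⟨1, fun _ hx => ln_mem hx⟩
  le_trans := by
    rintro Z Y X ⟨C, hC⟩ ⟨D, hD⟩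
    refine ⟨C * D, fun x hx => ?_⟩
    exact (len_le_mul Y.2.gen Z.2.gen hC x).trans (Nat.mul_le_mul_left _ (hD x hx))

theorem QPGen.le_def {G : Type} [Group G] {Y X : QPGen G} :
    Y ≤ X ↔ ∃ C : ℕ, ∀ x ∈ X.1, len Y.1 x ≤ C := Iff.rfl

/-- The poset of the quasi-parabolic hyperbolic structures on `G`: the partial order of the classes
of generating sets, where `X` and `Y` are in the same class if `X ≼ Y` and `Y ≼ X`. -/
abbrev HQP (G : Type) [Group G] : Type := Antisymmetrization (QPGen G) (· ≤ ·)

section hyp

variable {G : Type} [Group G] {X : Set G}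

theorem gp_comm (X : Set G) (w x y : G) : gp X w x y = gp X w y x := by
  have : len X (y⁻¹ * x) = len X (x⁻¹ * y) := by
    rw [len_eq, len_eq, ← ln_inv X (x⁻¹ * y)]
    congr 1
    group
  unfold gp
  rw [this]; ring

theorem gp_mul (X : Set G) (g w x y : G) : gp X (g * w) (g * x) (g * y) = gp X w x y := by
  have h : ∀ a b : G, (g * a)⁻¹ * (g * b) = a⁻¹ * b := fun a b => by group
  unfold gp
  rw [h, h, h]

/-- Change of the base point. -/
theorem gp_base (hX : Subgroup.closure X = ⊤) (g x y : G) :
    gp X 1 x y - len X g ≤ gp X 1 (g * x) (g * y) := by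
  have h0 : gp X 1 (g * x) (g * y) = gp X g⁻¹ x y := by
    have := gp_mul X g g⁻¹ x y
    rwa [mul_inv_cancel] at this
  rw [h0]
  unfold gp
  have h1 : ∀ z : G, (len X (1⁻¹ * z) : ℝ) ≤ len X g + len X ((g⁻¹)⁻¹ * z) := by
    intro z
    have h2 : ln X (g⁻¹ * (g * z)) ≤ ln X g⁻¹ + ln X (g * z) := ln_mul hX _ _
    rw [ln_inv, inv_mul_cancel_left] at h2
    rw [inv_one, one_mul, inv_inv]
    exact_mod_cast h2
  have h2 := h1 x
  have h3 := h1 y
  linarith

theorem Same.symm {u v : ℕ → G} (h : Same X u v) : Same X v u := by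
  intro K
  obtain ⟨N, hN⟩ := h K
  exact ⟨N, fun m n hm hn => by rw [gp_comm]; exact hN n m hn hm⟩

theorem Same.trans (hX : Hyp X) {u v w : ℕ → G} (h : Same X u v) (h' : Same X v w) :
    Same X u w := by
  obtain ⟨δ, hδ⟩ := hX
  intro K
  obtain ⟨N, hN⟩ := h (K + δ)
  obtain ⟨N', hN'⟩ := h' (K + δ)
  refine ⟨max N N', fun m n hm hn => ?_⟩
  have h1 := hN m (max N N') (by omega) (by omega)
  have h2 := hN' (max N N') n (by omega) (by omega)
  have h3 := hδ 1 (u m) (v (max N N')) (w n)
  have h4 := le_min h1 h2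
  linarith

theorem Same.mul (hX : Subgroup.closure X = ⊤) {u v : ℕ → G} (h : Same X u v) (g : G) :
    Same X (fun n => g * u n) (fun n => g * v n) := by
  intro K
  obtain ⟨N, hN⟩ := h (K + len X g)
  refine ⟨N, fun m n hm hn => ?_⟩
  have h1 := hN m n hm hn
  have h2 := gp_base hX g (u m) (v n)
  linarith

theorem Conv.mul (hX : Subgroup.closure X = ⊤) {u : ℕ → G} (h : Conv X u) (g : G) :
    Conv X (fun n => g * u n) := Same.mul hX h g

/-- A criterion for quasi-parabolic actions. -/
theorem isQP_of (hX : Subgroup.closure X = ⊤) (hyp : Hyp X) {u : ℕ → G} (hu : Conv X u)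
    (hfix : ∀ g : G, Same X u (fun n => g * u n)) {v : ℕ → ℕ → G} (hv : ∀ j, Conv X (v j))
    (hne : ∀ i j, i < j → ¬ Same X (v i) (v j)) : IsQP X := by
  refine ⟨hX, hyp, ⟨pt X u, ⟨u, hu, rfl⟩, ?_⟩, ?_⟩
  · have key : ∀ g : G, ∀ w ∈ pt X u, (fun n => g * w n) ∈ pt X u := by
      rintro g w ⟨hw, hw'⟩
      exact ⟨hw.mul hX g, (hfix g).trans hyp (hw'.mul hX g)⟩
    intro g
    apply Set.Subset.antisymm
    · rintro _ ⟨w, hw, rfl⟩
      exact key g w hw
    · intro w hw
      refine ⟨_, key g⁻¹ w hw, ?_⟩
      funext n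
      exact mul_inv_cancel_left g (w n)
  · have hinj : Function.Injective (fun j => pt X (v j)) := by
      have h1 : ∀ i j, i < j → pt X (v i) ≠ pt X (v j) := by
        intro i j hij h
        have h2 : v j ∈ pt X (v j) := ⟨hv j, hv j⟩
        rw [← h] at h2
        exact hne i j hij h2.2
      intro i j hij
      rcases lt_trichotomy i j with h | h | h
      · exact absurd hij (h1 i j h)
      · exact h
      · exact absurd hij.symm (h1 j i h)
    refine (Set.infinite_range_of_injective hinj).mono ?_
    rintro _ ⟨j, rfl⟩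
    exact ⟨v j, hv j, rfl⟩

end hyp

end Pool.Agent.H828_QC
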