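import Pool.Agent.H828_QC.Defs

/-!
# The group `ℤ ≀ ℤ` and its actions on trees given by sequences of divisors
-/

set_option autoImplicit false

open Pointwise

namespace Pool.Agent.H828_QC

open Pool.Agent.H828_QP (ln ln_le ln_one ln_spec ln_mul ln_inv ln_mem ln_pow ln_lower)

/-- The elements of the restricted wreath product `ℤ ≀ ℤ`: pairs of a finitely supported function
`c : ℤ → ℤ` and an integer `k`. -/
@[ext] structure ZwrZ : Type where
  c : ℤ →₀ ℤ
  k : ℤ

/-- The shift `i ↦ f (i - n)`. -/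
noncomputable def sh (n : ℤ) (f : ℤ →₀ ℤ) : ℤ →₀ ℤ := Finsupp.equivMapDomain (Equiv.addRight n) f

theorem sh_apply (n : ℤ) (f : ℤ →₀ ℤ) (i : ℤ) : sh n f i = f (i - n) := by
  rw [sh, Finsupp.equivMapDomain_apply]
  rfl

noncomputable instance : Mul ZwrZ := ⟨fun a b => ⟨a.c + sh a.k b.c, a.k + b.k⟩⟩
instance : One ZwrZ := ⟨⟨0, 0⟩⟩
noncomputable instance : Inv ZwrZ := ⟨fun a => ⟨-sh (-a.k) a.c, -a.k⟩⟩

@[simp] theorem mul_k (a b : ZwrZ) : (a * b).k = a.k + b.k := rfl
@[simp] theorem one_k : (1 : ZwrZ).k = 0 := rfl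
@[simp] theorem inv_k (a : ZwrZ) : (a⁻¹).k = -a.k := rfl
@[simp] theorem one_c (i : ℤ) : (1 : ZwrZ).c i = 0 := rfl
@[simp] theorem mul_c (a b : ZwrZ) (i : ℤ) : (a * b).c i = a.c i + b.c (i - a.k) := by
  change (a.c + sh a.k b.c) i = _
  rw [Finsupp.add_apply, sh_apply]
@[simp] theorem inv_c (a : ZwrZ) (i : ℤ) : (a⁻¹).c i = -a.c (i + a.k) := by
  change (-sh (-a.k) a.c) i = _
  rw [Finsupp.neg_apply, sh_apply, sub_neg_eq_add]

theorem ext' {a b : ZwrZ} (h1 : ∀ i, a.c i = b.c i) (h2 : a.k = b.k) : a = b :=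
  ZwrZ.ext (Finsupp.ext h1) h2

/-- The group structure of `ℤ ≀ ℤ`. -/
noncomputable instance : Group ZwrZ :=
  Group.ofLeftAxioms
    (fun a b c => ext' (fun i => by simp only [mul_c, mul_k]; rw [sub_sub, add_assoc]) (by simp [add_assoc]))
    (fun a => ext' (fun i => by simp) (by simp))
    (fun a => ext' (fun i => by simp) (by simp))

/-- The generator of the second factor. -/
def t : ZwrZ := ⟨0, 1⟩

/-- The element `(f, 0)`. -/
def el (f : ℤ →₀ ℤ) : ZwrZ := ⟨f, 0⟩

@[simp] theorem t_c (i : ℤ) : t.c i = 0 := rfl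
@[simp] theorem t_k : t.k = 1 := rfl
@[simp] theorem el_c (f : ℤ →₀ ℤ) (i : ℤ) : (el f).c i = f i := rfl
@[simp] theorem el_k (f : ℤ →₀ ℤ) : (el f).k = 0 := rfl

theorem t_pow (n : ℕ) : t ^ n = ⟨0, n⟩ := by
  induction n with
  | zero => rw [pow_zero]; exact ext' (fun i => by simp) (by simp)
  | succ n ih =>
    rw [pow_succ, ih]
    exact ext' (fun i => by simp) (by simp)

theorem t_zpow (n : ℤ) : t ^ n = ⟨0, n⟩ := by
  rcases Int.eq_nat_or_neg n with ⟨m, rfl | rfl⟩
  · rw [zpow_natCast, t_pow]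
  · rw [zpow_neg, zpow_natCast, t_pow]
    exact ext' (fun i => by simp) (by simp)

@[simp] theorem t_zpow_c (n i : ℤ) : (t ^ n).c i = 0 := by rw [t_zpow]; rfl
@[simp] theorem t_zpow_k (n : ℤ) : (t ^ n).k = n := by rw [t_zpow]
@[simp] theorem t_pow_c (n : ℕ) (i : ℤ) : (t ^ n).c i = 0 := by rw [t_pow]; rfl
@[simp] theorem t_pow_k (n : ℕ) : (t ^ n).k = n := by rw [t_pow]

theorem el_single (i m : ℤ) : el (Finsupp.single i m) =
    t ^ i * (el (Finsupp.single 0 1)) ^ m * (t ^ i)⁻¹ := by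
  have h1 : ∀ m : ℤ, (el (Finsupp.single 0 1)) ^ m = el (Finsupp.single 0 m) := by
    intro m
    induction m with
    | zero => exact ext' (fun i => by simp) (by simp)
    | succ m ih =>
      rw [zpow_add_one, ih]
      refine ext' (fun i => ?_) (by simp)
      rw [mul_c]
      simp only [el_c, el_k, sub_zero]
      rw [Finsupp.single_add, Finsupp.add_apply]
    | pred m ih =>
      rw [zpow_sub_one, ih]
      refine ext' (fun i => ?_) (by simp)
      rw [mul_c, inv_c]
      simp only [el_c, el_k, sub_zero, add_zero]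
      rw [sub_eq_add_neg, Finsupp.single_add, Finsupp.add_apply, Finsupp.single_neg 0 (1 : ℤ),
        Finsupp.neg_apply]
  rw [h1]
  refine ext' (fun j => ?_) (by simp)
  simp only [mul_c, inv_c, el_c, t_zpow_c, t_zpow_k, mul_k, el_k]
  simp only [Finsupp.single_apply]
  have : (i = j) ↔ (0 = j - i) := by omega
  simp [this]

theorem fg : Group.FG ZwrZ := by
  rw [Group.fg_iff]
  refine ⟨{t, el (Finsupp.single 0 1)}, ?_, by simp⟩
  rw [eq_top_iff]
  intro g _
  have ht : t ∈ Subgroup.closure ({t, el (Finsupp.single 0 1)} : Set ZwrZ) :=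
    Subgroup.subset_closure (Or.inl rfl)
  have ha : el (Finsupp.single 0 1) ∈ Subgroup.closure ({t, el (Finsupp.single 0 1)} : Set ZwrZ) :=
    Subgroup.subset_closure (Or.inr rfl)
  have h1 : ∀ f : ℤ →₀ ℤ, el f ∈ Subgroup.closure ({t, el (Finsupp.single 0 1)} : Set ZwrZ) := by
    intro f
    induction f using Finsupp.induction_linear with
    | zero =>
      have : el 0 = 1 := ext' (fun i => by simp) (by simp)
      rw [this]; exact one_mem _
    | add f g hf hg =>
      have : el (f + g) = el f * el g := ext' (fun i => by simp) (by simp)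
      rw [this]; exact mul_mem hf hg
    | single i m =>
      rw [el_single i m]
      exact mul_mem (mul_mem (zpow_mem ht _) (zpow_mem ha _)) (inv_mem (zpow_mem ht _))
  have h2 : g = el g.c * t ^ g.k := ext' (fun i => by simp) (by simp)
  rw [h2]
  exact mul_mem (h1 _) (zpow_mem ht _)

/-! ### Sequences of divisors -/

/-- A sequence of divisors. -/
structure Good (D : ℤ → ℤ) : Prop where
  one : ∀ i, 0 ≤ i → D i = 1
  dvd : ∀ i j, i ≤ j → D j ∣ D i
  unb : ∀ m : ℤ, m ≠ 0 → ∃ i, ¬ D i ∣ m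

/-- The vertices `a` and `b` have the same ancestor at height `l`. -/
def Agr (D : ℤ → ℤ) (a b : ZwrZ) (l : ℤ) : Prop := ∀ i, D (i - l) ∣ a.c i - b.c i

variable {D : ℤ → ℤ}

theorem Agr.refl (a : ZwrZ) (l : ℤ) : Agr D a a l := fun i => by rw [sub_self]; exact dvd_zero _

theorem Agr.symm {a b : ZwrZ} {l : ℤ} (h : Agr D a b l) : Agr D b a l := fun i => by
  have := (dvd_neg (a := D (i - l)) (b := a.c i - b.c i)).2 (h i)
  rwa [neg_sub] at this

theorem Agr.trans {a b c : ZwrZ} {l : ℤ} (h : Agr D a b l) (h' : Agr D b c l) : Agr D a c l :=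
  fun i => by
    have := dvd_add (h i) (h' i)
    rwa [sub_add_sub_cancel] at this

theorem Agr.mono (hD : Good D) {a b : ZwrZ} {l l' : ℤ} (h : Agr D a b l) (hl : l' ≤ l) :
    Agr D a b l' := fun i => (hD.dvd _ _ (by omega)).trans (h i)

theorem exists_agr (hD : Good D) (a b : ZwrZ) : ∃ l : ℤ, Agr D a b l := by
  obtain ⟨m, hm⟩ := (a.c - b.c).support.bddBelow
  refine ⟨m, fun i => ?_⟩
  by_cases hi : a.c i - b.c i = 0
  · rw [hi]; exact dvd_zero _
  · have h1 : i ∈ (a.c - b.c).support := by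
      rw [Finsupp.mem_support_iff, Finsupp.sub_apply]; exact hi
    have h2 : m ≤ i := hm h1
    rw [hD.one _ (by omega)]
    exact one_dvd _

theorem agr_mul (g a b : ZwrZ) (l : ℤ) : Agr D (g * a) (g * b) (l + g.k) ↔ Agr D a b l := by
  constructor
  · intro h i
    have := h (i + g.k)
    simpa using this
  · intro h i
    have := h (i - g.k)
    rw [mul_c, mul_c, add_sub_add_left_eq_sub]
    rwa [sub_sub, add_comm g.k l] at this

theorem exists_MM (hD : Good D) (a b : ZwrZ) : ∃ m : ℤ, (m ≤ a.k ∧ m ≤ b.k ∧ Agr D a b m) ∧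
    ∀ l, (l ≤ a.k ∧ l ≤ b.k ∧ Agr D a b l) → l ≤ m := by
  apply Int.exists_greatest_of_bdd
  · exact ⟨a.k, fun z hz => hz.1⟩
  · obtain ⟨i, hi⟩ := exists_agr hD a b
    exact ⟨min i (min a.k b.k), by omega, by omega, hi.mono hD (by omega)⟩

/-- The height of the meet of two vertices. -/
noncomputable def MM (hD : Good D) (a b : ZwrZ) : ℤ := (exists_MM hD a b).choose

section
variable (hD : Good D)
include hD

theorem MM_left (a b : ZwrZ) : MM hD a b ≤ a.k := (exists_MM hD a b).choose_spec.1.1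
theorem MM_right (a b : ZwrZ) : MM hD a b ≤ b.k := (exists_MM hD a b).choose_spec.1.2.1
theorem MM_agr (a b : ZwrZ) : Agr D a b (MM hD a b) := (exists_MM hD a b).choose_spec.1.2.2
theorem le_MM {a b : ZwrZ} {l : ℤ} (h1 : l ≤ a.k) (h2 : l ≤ b.k) (h3 : Agr D a b l) :
    l ≤ MM hD a b := (exists_MM hD a b).choose_spec.2 l ⟨h1, h2, h3⟩

theorem MM_comm (a b : ZwrZ) : MM hD a b = MM hD b a :=
  le_antisymm (le_MM hD (MM_right hD a b) (MM_left hD a b) (MM_agr hD a b).symm)
    (le_MM hD (MM_right hD b a) (MM_left hD b a) (MM_agr hD b a).symm)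

theorem MM_self (a : ZwrZ) : MM hD a a = a.k :=
  le_antisymm (MM_left hD a a) (le_MM hD le_rfl le_rfl (Agr.refl _ _))

theorem MM_ultra (a b c : ZwrZ) : min (MM hD a b) (MM hD b c) ≤ MM hD a c := by
  apply le_MM
  · exact (min_le_left _ _).trans (MM_left hD a b)
  · exact (min_le_right _ _).trans (MM_right hD b c)
  · exact ((MM_agr hD a b).mono hD (min_le_left _ _)).trans
      ((MM_agr hD b c).mono hD (min_le_right _ _))

theorem MM_mul_left_le (g a b : ZwrZ) : MM hD a b + g.k ≤ MM hD (g * a) (g * b) := by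
  apply le_MM
  · rw [mul_k]; have := MM_left hD a b; omega
  · rw [mul_k]; have := MM_right hD a b; omega
  · rw [agr_mul]; exact MM_agr hD a b

theorem MM_mul_left (g a b : ZwrZ) : MM hD (g * a) (g * b) = MM hD a b + g.k := by
  apply le_antisymm _ (MM_mul_left_le hD g a b)
  have := MM_mul_left_le hD g⁻¹ (g * a) (g * b)
  rw [inv_mul_cancel_left, inv_mul_cancel_left, inv_k] at this
  omega

end

/-- The distance in the tree. -/
noncomputable def DD (hD : Good D) (a b : ZwrZ) : ℤ := a.k + b.k - 2 * MM hD a b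

/-- The generating set `Q ∪ {t}`. -/
def XX (D : ℤ → ℤ) : Set ZwrZ := {g | g.k = 0 ∧ ∀ i, D i ∣ g.c i} ∪ {t}

section
variable (hD : Good D)
include hD

theorem DD_mul_left (g a b : ZwrZ) : DD hD (g * a) (g * b) = DD hD a b := by
  unfold DD
  rw [MM_mul_left, mul_k, mul_k]
  ring

theorem DD_tri (a b c : ZwrZ) : DD hD a c ≤ DD hD a b + DD hD b c := by
  unfold DD
  have h1 := MM_ultra hD a b c
  have h2 := MM_right hD a b
  have h3 := MM_left hD b c
  omega

theorem DD_one_le {x : ZwrZ} (hx : x ∈ XX D ∪ (XX D)⁻¹) : DD hD 1 x ≤ 1 := by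
  have h1 : ∀ y ∈ XX D, DD hD 1 y ≤ 1 := by
    rintro y (hy | hy)
    · have : MM hD 1 y = 0 := by
        apply le_antisymm (MM_left hD 1 y)
        exact le_MM hD (l := 0) (by rw [one_k]) (by rw [hy.1]) (fun i => by
          rw [sub_zero, one_c, zero_sub, dvd_neg]; exact hy.2 i)
      unfold DD
      rw [this, hy.1]; simp
    · rw [Set.mem_singleton_iff] at hy
      subst hy
      have : MM hD 1 t = 0 := by
        apply le_antisymm (MM_left hD 1 t)
        exact le_MM hD (l := 0) (by rw [one_k]) (by simp) (fun i => by simp)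
      unfold DD
      rw [this]; simp
  rcases hx with hx | hx
  · exact h1 x hx
  · have h2 := h1 _ (Set.mem_inv.1 hx)
    have h3 := DD_mul_left hD x 1 x⁻¹
    rw [mul_one, mul_inv_cancel] at h3
    have h4 : DD hD x 1 = DD hD 1 x := by unfold DD; rw [MM_comm]; ring
    rw [← h4, h3]
    exact h2

omit hD in
theorem conj_mem {g : ZwrZ} {l : ℤ} (h : Agr D 1 g l) :
    t ^ (-l) * g * t ^ (l - g.k) ∈ XX D := by
  refine Or.inl ⟨by simp, fun i => ?_⟩
  have := h (i + l)
  rw [add_sub_cancel_right, one_c, zero_sub, dvd_neg] at this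
  simpa using this

omit hD in
theorem eq_conj (g : ZwrZ) (l : ℤ) :
    g = t ^ l * (t ^ (-l) * g * t ^ (l - g.k)) * t ^ (g.k - l) := by
  have : t ^ (g.k - l) = (t ^ (l - g.k))⁻¹ := by rw [← zpow_neg]; congr 1; ring
  rw [this, zpow_neg]; group

theorem closure_XX : Subgroup.closure (XX D) = ⊤ := by
  rw [eq_top_iff]
  intro g _
  obtain ⟨i, hi⟩ := exists_agr hD 1 g
  have ht : t ∈ Subgroup.closure (XX D) := Subgroup.subset_closure (Or.inr rfl)
  rw [eq_conj g i]
  exact mul_mem (mul_mem (zpow_mem ht _) (Subgroup.subset_closure (conj_mem hi))) (zpow_mem ht _)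

theorem ln_t_zpow (n : ℤ) : len (XX D) (t ^ n) ≤ n.natAbs := by
  have h8 : ln (XX D) t ≤ 1 := ln_mem (Or.inr rfl)
  have key : ∀ m : ℕ, len (XX D) (t ^ m) ≤ m := by
    intro m
    refine (ln_pow (closure_XX hD) t m).trans ?_
    calc m * ln (XX D) t ≤ m * 1 := Nat.mul_le_mul_left _ h8
      _ = m := mul_one _
  rcases Int.natAbs_eq n with h | h
  · conv_lhs => rw [h]
    rw [zpow_natCast]
    exact key _
  · conv_lhs => rw [h]
    rw [zpow_neg, len_eq, ln_inv, zpow_natCast]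
    exact key _

/-- upper bound for the word length -/
theorem ln_XX_le {g : ZwrZ} {l : ℤ} (h1 : Agr D 1 g l) :
    len (XX D) g ≤ l.natAbs + 1 + (g.k - l).natAbs := by
  have h3 : len (XX D) (t ^ l * (t ^ (-l) * g * t ^ (l - g.k)) * t ^ (g.k - l)) ≤
      len (XX D) (t ^ l * (t ^ (-l) * g * t ^ (l - g.k))) + len (XX D) (t ^ (g.k - l)) :=
    ln_mul (closure_XX hD) _ _
  have h4 : len (XX D) (t ^ l * (t ^ (-l) * g * t ^ (l - g.k))) ≤
      len (XX D) (t ^ l) + len (XX D) (t ^ (-l) * g * t ^ (l - g.k)) :=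
    ln_mul (closure_XX hD) _ _
  have h5 : len (XX D) (t ^ (-l) * g * t ^ (l - g.k)) ≤ 1 := ln_mem (conj_mem h1)
  have h6 := ln_t_zpow hD l
  have h7 := ln_t_zpow hD (g.k - l)
  rw [← eq_conj g l] at h3
  omega

theorem ln_XX_upper (g : ZwrZ) : (len (XX D) g : ℤ) ≤ DD hD 1 g + 1 := by
  have h := ln_XX_le hD (MM_agr hD 1 g)
  have h1 := MM_left hD 1 g
  have h2 := MM_right hD 1 g
  rw [one_k] at h1
  unfold DD
  rw [one_k]
  omega

theorem ln_XX_lower (g : ZwrZ) : DD hD 1 g ≤ len (XX D) g := by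
  apply ln_lower (closure_XX hD) (fun g => DD hD 1 g)
  · change DD hD 1 1 ≤ 0
    unfold DD; rw [MM_self]; simp
  · intro g x hx
    have h1 := DD_tri hD 1 g (g * x)
    have h2 := DD_mul_left hD g 1 x
    rw [mul_one] at h2
    have h3 := DD_one_le hD hx
    change DD hD 1 (g * x) ≤ DD hD 1 g + 1
    omega

end

/-- The Gromov product in the tree. -/
noncomputable def gD (hD : Good D) (a b : ZwrZ) : ℤ := MM hD a b - MM hD 1 a - MM hD 1 b

section
variable (hD : Good D)
include hD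

theorem gD_four (x y z : ZwrZ) : min (gD hD x y) (gD hD y z) ≤ gD hD x z := by
  unfold gD
  have h1 := MM_ultra hD x y z
  have h2 := MM_ultra hD 1 x y
  have h3 := MM_ultra hD 1 y z
  have h4 := MM_ultra hD 1 x z
  have h5 := MM_ultra hD 1 y x
  have h6 := MM_ultra hD 1 z y
  have h7 := MM_ultra hD 1 z x
  have h8 := MM_ultra hD x 1 y
  have h9 := MM_ultra hD y 1 z
  have h10 := MM_ultra hD x 1 z
  have h11 := MM_ultra hD x z y
  have h12 := MM_ultra hD y x z
  have e1 := MM_comm hD x 1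
  have e2 := MM_comm hD y 1
  have e3 := MM_comm hD z y
  have e4 := MM_comm hD y x
  have e5 := MM_comm hD z x
  omega

theorem DD_inv_mul (a b : ZwrZ) : DD hD 1 (a⁻¹ * b) = DD hD a b := by
  have := DD_mul_left hD a 1 (a⁻¹ * b)
  rw [mul_one, mul_inv_cancel_left] at this
  exact this.symm

theorem gX_upper (a b : ZwrZ) : gp (XX D) 1 a b ≤ gD hD a b + 1 := by
  unfold gp
  rw [inv_one, one_mul, one_mul]
  have h1 := ln_XX_upper hD a
  have h2 := ln_XX_upper hD b
  have h3 := ln_XX_lower hD (a⁻¹ * b)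
  rw [DD_inv_mul] at h3
  have h4 : ((len (XX D) a : ℤ) + len (XX D) b - len (XX D) (a⁻¹ * b)) ≤ 2 * gD hD a b + 2 := by
    unfold gD
    unfold DD at h1 h2 h3
    rw [one_k] at h1 h2
    omega
  have h5 : ((len (XX D) a : ℝ) + len (XX D) b - len (XX D) (a⁻¹ * b)) ≤ 2 * gD hD a b + 2 := by
    exact_mod_cast h4
  linarith

theorem gX_lower (a b : ZwrZ) : (gD hD a b : ℝ) - 1 / 2 ≤ gp (XX D) 1 a b := by
  unfold gp
  rw [inv_one, one_mul, one_mul]
  have h1 := ln_XX_lower hD a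
  have h2 := ln_XX_lower hD b
  have h3 := ln_XX_upper hD (a⁻¹ * b)
  rw [DD_inv_mul] at h3
  have h4 : 2 * gD hD a b - 1 ≤ ((len (XX D) a : ℤ) + len (XX D) b - len (XX D) (a⁻¹ * b)) := by
    unfold gD
    unfold DD at h1 h2 h3
    rw [one_k] at h1 h2
    omega
  have h5 : 2 * (gD hD a b : ℝ) - 1 ≤
      ((len (XX D) a : ℝ) + len (XX D) b - len (XX D) (a⁻¹ * b)) := by
    exact_mod_cast h4
  linarith

theorem hyp_XX : Hyp (XX D) := by
  refine ⟨3 / 2, fun w x y z => ?_⟩
  have key : ∀ x y z : ZwrZ, min (gp (XX D) 1 x y) (gp (XX D) 1 y z) - 3 / 2 ≤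
      gp (XX D) 1 x z := by
    intro x y z
    have h1 := gX_upper hD x y
    have h2 := gX_upper hD y z
    have h3 := gX_lower hD x z
    have h4 : (min (gD hD x y) (gD hD y z) : ℤ) ≤ gD hD x z := gD_four hD x y z
    rcases min_le_iff.1 h4 with h5 | h5
    · have h6 : (gD hD x y : ℝ) ≤ gD hD x z := by exact_mod_cast h5
      have := min_le_left (gp (XX D) 1 x y) (gp (XX D) 1 y z)
      linarith
    · have h6 : (gD hD y z : ℝ) ≤ gD hD x z := by exact_mod_cast h5
      have := min_le_right (gp (XX D) 1 x y) (gp (XX D) 1 y z)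
      linarith
  have h := key (w⁻¹ * x) (w⁻¹ * y) (w⁻¹ * z)
  have e : ∀ a b : ZwrZ, gp (XX D) 1 (w⁻¹ * a) (w⁻¹ * b) = gp (XX D) w a b := by
    intro a b
    have := gp_mul (XX D) w⁻¹ w a b
    rwa [inv_mul_cancel] at this
  rwa [e, e, e] at h

/-- A sequence with large Gromov products in the tree. -/
theorem same_of {u v : ℕ → ZwrZ} (h : ∀ K : ℤ, ∃ N : ℕ, ∀ m n : ℕ, N ≤ m → N ≤ n →
    K ≤ gD hD (u m) (v n)) : Same (XX D) u v := by
  intro K
  obtain ⟨N, hN⟩ := h (⌈K⌉ + 1)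
  refine ⟨N, fun m n hm hn => ?_⟩
  have h1 := hN m n hm hn
  have h2 := gX_lower hD (u m) (v n)
  have h3 : ((⌈K⌉ + 1 : ℤ) : ℝ) ≤ gD hD (u m) (v n) := by exact_mod_cast h1
  have h4 := Int.le_ceil K
  push_cast at h3
  linarith

theorem isQP_XX : IsQP (XX D) := by
  refine isQP_of (closure_XX hD) (hyp_XX hD) (u := fun n => t ^ (-(n : ℤ)))
    ?_ ?_ (v := fun j n => el (Finsupp.single 0 (j : ℤ)) * t ^ (n : ℤ)) ?_ ?_
  · apply same_of hD
    intro K
    refine ⟨K.toNat, fun m n hm hn => ?_⟩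
    unfold gD
    have h1 : min (-(m : ℤ)) (-(n : ℤ)) ≤ MM hD (t ^ (-(m : ℤ))) (t ^ (-(n : ℤ))) := by
      apply le_MM
      · rw [t_zpow_k]; exact min_le_left _ _
      · rw [t_zpow_k]; exact min_le_right _ _
      · intro i; rw [t_zpow_c, t_zpow_c, sub_zero]; exact dvd_zero _
    have h2 := MM_right hD 1 (t ^ (-(m : ℤ)))
    have h3 := MM_right hD 1 (t ^ (-(n : ℤ)))
    rw [t_zpow_k] at h2 h3
    omega
  · intro g
    apply same_of hD
    intro K
    obtain ⟨l, hl⟩ := exists_agr hD 1 g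
    refine ⟨(|K| + |g.k| + |l|).toNat, fun m n hm hn => ?_⟩
    unfold gD
    have h1 : min (min (-(m : ℤ)) (g.k - n)) l ≤
        MM hD (t ^ (-(m : ℤ))) (g * t ^ (-(n : ℤ))) := by
      apply le_MM
      · rw [t_zpow_k]; exact (min_le_left _ _).trans (min_le_left _ _)
      · rw [mul_k, t_zpow_k]
        have := (min_le_left (min (-(m : ℤ)) (g.k - n)) l).trans (min_le_right _ _)
        omega
      · refine Agr.mono hD (l := l) (fun i => ?_) (min_le_right _ _)
        have := hl i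
        simpa using this
    have h2 := MM_right hD 1 (t ^ (-(m : ℤ)))
    have h3 := MM_right hD 1 (g * t ^ (-(n : ℤ)))
    rw [t_zpow_k] at h2
    rw [mul_k, t_zpow_k] at h3
    have e1 := neg_abs_le K
    have e2 := neg_abs_le g.k
    have e3 := neg_abs_le l
    have e4 := le_abs_self K
    have e5 := le_abs_self g.k
    have e6 := le_abs_self l
    omega
  · intro j
    apply same_of hD
    intro K
    refine ⟨K.toNat, fun m n hm hn => ?_⟩
    unfold gD
    have h1 : min (m : ℤ) (n : ℤ) ≤ MM hD (el (Finsupp.single 0 (j : ℤ)) * t ^ (m : ℤ))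
        (el (Finsupp.single 0 (j : ℤ)) * t ^ (n : ℤ)) := by
      apply le_MM
      · rw [mul_k, t_zpow_k, el_k, zero_add]; exact min_le_left _ _
      · rw [mul_k, t_zpow_k, el_k, zero_add]; exact min_le_right _ _
      · intro i
        rw [mul_c, mul_c, t_zpow_c, t_zpow_c, sub_self]
        exact dvd_zero _
    have h2 := MM_left hD 1 (el (Finsupp.single 0 (j : ℤ)) * t ^ (m : ℤ))
    have h3 := MM_left hD 1 (el (Finsupp.single 0 (j : ℤ)) * t ^ (n : ℤ))
    rw [one_k] at h2 h3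
    omega
  · intro j j' hj h
    obtain ⟨i, hi⟩ := hD.unb ((j : ℤ) - j') (by omega)
    obtain ⟨N, hN⟩ := h (|i| + 2)
    have h1 := hN N N le_rfl le_rfl
    have h2 := gX_upper hD (el (Finsupp.single 0 (j : ℤ)) * t ^ (N : ℤ))
      (el (Finsupp.single 0 (j' : ℤ)) * t ^ (N : ℤ))
    have e : ∀ j : ℕ, 0 ≤ MM hD 1 (el (Finsupp.single 0 (j : ℤ)) * t ^ (N : ℤ)) := by
      intro j
      apply le_MM
      · rw [one_k]
      · rw [mul_k, t_zpow_k, el_k, zero_add]; positivity
      · intro i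
        rw [sub_zero, mul_c, t_zpow_c, el_c, one_c, add_zero, zero_sub, dvd_neg,
          Finsupp.single_apply]
        split_ifs with h
        · rw [← h, hD.one 0 le_rfl]; exact one_dvd _
        · exact dvd_zero _
    have h3 : MM hD (el (Finsupp.single 0 (j : ℤ)) * t ^ (N : ℤ))
        (el (Finsupp.single 0 (j' : ℤ)) * t ^ (N : ℤ)) < -i := by
      by_contra hc
      push Not at hc
      have h4 := (MM_agr hD (el (Finsupp.single 0 (j : ℤ)) * t ^ (N : ℤ))
        (el (Finsupp.single 0 (j' : ℤ)) * t ^ (N : ℤ))).mono hD hc 0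
      rw [mul_c, mul_c, t_zpow_c, t_zpow_c, el_c, el_c, Finsupp.single_eq_same,
        Finsupp.single_eq_same, add_zero, add_zero, zero_sub, neg_neg] at h4
      exact hi h4
    have h5 : gD hD (el (Finsupp.single 0 (j : ℤ)) * t ^ (N : ℤ))
        (el (Finsupp.single 0 (j' : ℤ)) * t ^ (N : ℤ)) < -i := by
      unfold gD
      have := e j
      have := e j'
      omega
    have h6 : (gD hD (el (Finsupp.single 0 (j : ℤ)) * t ^ (N : ℤ))
        (el (Finsupp.single 0 (j' : ℤ)) * t ^ (N : ℤ)) : ℝ) < -i := by exact_mod_cast h5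
    have h7 : (-(i : ℝ)) ≤ |(i : ℝ)| := neg_le_abs _
    push_cast at h1
    linarith

end

end Pool.Agent.H828_QC
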